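import Mathlib
import Pool.Agent.KB.Fld

/-!
MP_6f52bd_co: `2`-bisector-rich sets all of whose rational apex angles of non-prime-power order
have order dividing `12`, in particular all sets with coordinates in `ℚ(√3)` (up to similarity),
contain Kelly's eight points.
-/

namespace Pool.Agent.Results.MP_6f52bd_co.RootThree

open KB

theorem result (S : Finset ℂ) (hS : 2 ≤ S.card) (hR : Rich 2 S)
    (hA : (∀ m, Adm S m → m ∣ 12) ∨ ∃ a b : ℂ, a ≠ 0 ∧ ∀ p ∈ S, Coord3 (a * p + b)) :
    ∃ c z : ℂ, z ≠ 0 ∧ (∀ j, c + z * kellyPt j ∈ S) ∧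
      (∀ j l, j ≠ l →
        (∀ x ∈ S, dist x (c + z * kellyPt j) = dist x (c + z * kellyPt l) →
          ∃ t, x = c + z * kellyPt t) ∧
        (S.filter fun x => dist x (c + z * kellyPt j) = dist x (c + z * kellyPt l)).card = 2) ∧
      (S = Finset.univ.image (fun j => c + z * kellyPt j) ∨ 15 ≤ S.card) := by
  have hA' : ∀ m, Adm S m → m ∣ 12 := by
    rcases hA with h | ⟨a, b, ha, h⟩
    · exact h
    · exact adm_of_coord_affine ha h
  obtain ⟨c, z, hz, hmem, htwo⟩ := kelly_of_rich hR hS hA'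
  have hall := all_pairs hz htwo
  exact ⟨c, z, hz, hmem, hall, gap hR hz hmem fun j l hjl => (hall j l hjl).1⟩

end Pool.Agent.Results.MP_6f52bd_co.RootThree
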