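import Mathlib
import Pool.Agent.KB.Red

/-!
MP_6f52bd_co: every `k`-bisector-rich set contains, up to similarity, a finite unit system in the
ring of integers of a cyclotomic field which is itself `k`-rich for unit differences.
-/

namespace Pool.Agent.Results.MP_6f52bd_co.UnitSystem

theorem result (k : ℕ) (S : Finset ℂ) (hS : 2 ≤ S.card) (hR : KB.Rich k S) :
    ∃ N : ℕ, 0 < N ∧ ∃ c z : ℂ, z ≠ 0 ∧ ∃ V : Finset ℂ,
      (∀ v ∈ V, v ∈ Algebra.adjoin ℤ {Complex.exp (2 * Real.pi * Complex.I / N)}) ∧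
      (∀ v ∈ V, c + z * v ∈ S) ∧ 0 ∈ V ∧ 1 ∈ V ∧
      ∀ p ∈ V, ∀ q ∈ V, p ≠ q → KB.AUnit (p - q) →
        1 ≤ ‖p - q‖ ∧ k ≤ (V.filter fun x => dist x p = dist x q).card ∧
        ∀ s ∈ S, dist s (c + z * p) = dist s (c + z * q) →
          ∃ x ∈ V, s = c + z * x ∧ KB.AUnit (x - p) ∧ KB.AUnit (x - q) ∧
            ∃ m, 1 < m ∧ ¬ IsPrimePow m ∧ IsPrimitiveRoot ((x - p) / (x - q)) m :=
  KB.reduction k S hS hR

end Pool.Agent.Results.MP_6f52bd_co.UnitSystem
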